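import Pool.Agent.Helper31_Amp.Final
import Pool.Agent.Helper31_Con.Inst4

/-!
# Subexponential proofs of finite consistency on long intervals, for all reflection strengths
-/

namespace Helper31Con.H71

open Function Filter Fm Helper31Con

variable {r : ℕ}

lemma J_shift (hr : 0 < r) (c : ℕ) : ∀ᶠ n in atTop, J r (n + c) ≤ J r n + 1 := by
  obtain ⟨j₀, h⟩ := eventually_atTop.mp (fs_pow hr 2)
  filter_upwards [J_tendsto hr (j₀ + c + 2)] with n hn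
  by_contra hcon
  push Not at hcon
  have hs := fs_strictMono hr
  have h1 := lt_J hr n
  have h2 := h (J r n + 1) (by omega)
  have h3 := lt_fs hr (J r n + 1)
  obtain ⟨u, hu⟩ : ∃ u, u = fs r (J r n + 1) := ⟨_, rfl⟩
  rw [← hu] at h1 h2 h3
  have h4 : u + c ≤ u ^ 2 := by nlinarith
  have h5 : fs r (J r n + 2) ≤ fs r (J r (n + c)) := hs.monotone (by omega)
  by_cases h0 : fs r 0 ≤ n + c
  · have h6 := J_le h0
    have h7 : fs r (J r n + 1 + 1) = fs r (J r n + 2) := rfl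
    omega
  · have h6 : J r (n + c) = 0 := J_eq hr (Or.inr rfl) (by have := fs_lt hr 0; omega)
    omega

lemma gs_shift (hr : 0 < r) (k c : ℕ) : ∀ᶠ n in atTop, gs r k (n + c) ≤ gs r (k + 1) n := by
  filter_upwards [J_shift hr c] with n hn
  exact (fs_strictMono hr).monotone (by omega)

lemma gs_le_iter (hr : 0 < r) {k s : ℕ} (h : r + 1 ≤ k * (s + 1)) (n : ℕ) :
    2 ^ n ≤ (gs r k)^[s + 1] n := by
  have hs := fs_strictMono hr
  rw [gs_iter hr]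
  have h1 : J r n + 1 + r ≤ J r n + k * (s + 1) := by omega
  refine le_trans ?_ (hs.monotone h1)
  rw [fs_add hr]
  exact Nat.pow_le_pow_right (by omega) (lt_J hr n).le

/-- Short proofs on long intervals. -/
theorem long {con : Fm} (hcon : IsCon con) (B₀ : List Fm) (hB₀ : ∀ β ∈ B₀, TrueS β)
    (hr : 0 < r) (k : ℕ) :
    ∃ A : List Fm, (∀ φ ∈ A, TrueS φ) ∧ (∀ φ ∈ B₀, φ ∈ A) ∧ (∀ φ ∈ Q, φ ∈ A) ∧
      ∀ M : ℕ, ∃ N ≥ M, ∀ n ≤ N, N ≤ gs r k n →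
        Prov A (gs r (k + 3) n) (conN con (conS con A :: A) n) := by
  have hs := fs_strictMono hr
  obtain ⟨f, F, hf, hdown⟩ := con_down hcon
  obtain ⟨B₁, hB₁, hB₁'⟩ := rich_iff.mp hdown
  obtain ⟨A, c, h1, h2, h3, h4⟩ := main hcon (gs_mono hr 2) (gs_evExp hr le_rfl)
    (gs_graph hr (by omega)) (B₀ ++ B₁) (by
      intro β hβ
      rcases List.mem_append.mp hβ with h | h
      · exact hB₀ β h
      · exact hB₁ β h)
  have hdownA := hB₁' A fun β hβ => h2 β (List.mem_append_right _ hβ)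
  obtain ⟨T, hT⟩ : ∃ T, T = conS con A :: A := ⟨_, rfl⟩
  rw [← hT] at h4
  have hTs : ∀ φ ∈ T, Fm.Sentence φ := by
    rw [hT]
    intro φ hφ
    rcases List.mem_cons.mp hφ with rfl | hφ
    · exact hcon.conS_sentence A
    · exact (h1 φ hφ).1
  refine ⟨A, h1, fun φ hφ => h2 φ (List.mem_append_left _ hφ), h3, ?_⟩
  intro M
  obtain ⟨C, q, hC⟩ := hf
  obtain ⟨K, hK⟩ : ∃ K, K = F (lc T) := ⟨_, rfl⟩
  obtain ⟨n₁, hn₁⟩ := eventually_atTop.mp ((gs_pow hr (k + 2) (C + (c + 3) * q)).and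
    ((gs_tendsto hr (k + 2) K).and (gs_tendsto hr (k + 2) 2)))
  obtain ⟨N, hN, h5⟩ := h4 (max M (gs r k n₁ + 1))
  refine ⟨N, (le_max_left _ _).trans hN, fun n hn hnk => ?_⟩
  rw [← hT]
  have hN' : gs r k n₁ + 1 ≤ N := (le_max_right _ _).trans hN
  have hn' : n₁ ≤ n := by
    by_contra h6
    have := gs_mono hr k (show n ≤ n₁ by omega)
    omega
  obtain ⟨h6, h8, h9⟩ := hn₁ n hn'
  rw [hcon.conN_eq] at h5 ⊢
  have h10 := hdownA T N n _ hTs hn h5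
  rw [← hK] at h10
  refine h10.mono (le_trans ?_ h6)
  obtain ⟨y, hy⟩ : ∃ y, y = gs r (k + 2) n := ⟨_, rfl⟩
  rw [← hy] at h8 h9 ⊢
  have h11 : gs r 2 N ≤ y := by
    rw [hy, ← gs_gs hr 2 k n]
    exact gs_mono hr 2 hnk
  have h12 : N ≤ y := by
    refine hnk.trans ?_
    rw [hy]
    exact hs.monotone (by omega)
  have h13 : (gs r 2 N) ^ c ≤ y ^ c := Nat.pow_le_pow_left h11 c
  have h14 : y ≤ y ^ (c + 1) := by
    calc y = y ^ 1 := (pow_one y).symm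
      _ ≤ y ^ (c + 1) := Nat.pow_le_pow_right (by omega) (by omega)
  have h15 : y ^ c ≤ y ^ (c + 1) := Nat.pow_le_pow_right (by omega) (by omega)
  have h16 : y ^ (c + 3) = y ^ (c + 1) * (y * y) := by ring
  have h17 : 4 ≤ y * y := by nlinarith
  have h18 : N + (gs r 2 N) ^ c + K + 2 ≤ y ^ (c + 3) := by
    rw [h16]
    have : y ^ (c + 1) * 4 ≤ y ^ (c + 1) * (y * y) := Nat.mul_le_mul_left _ h17
    omega
  have h19 : C ≤ y ^ C := (Nat.lt_two_pow_self).le.trans (Nat.pow_le_pow_left h9 _)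
  calc f (N + (gs r 2 N) ^ c + K) ≤ C * (N + (gs r 2 N) ^ c + K + 2) ^ q := hC _
    _ ≤ y ^ C * (y ^ (c + 3)) ^ q := Nat.mul_le_mul h19 (Nat.pow_le_pow_left h18 _)
    _ = y ^ (C + (c + 3) * q) := by rw [← pow_mul, ← pow_add]

/-- The same for the theory `A + θ (A)`. -/
theorem long_theta {con : Fm} (hcon : IsCon con) {θ : Fm}
    (hθ : ∀ S : List Fm, (∀ φ ∈ S, TrueS φ) → TrueS (θ.sub 0 (.num (lc S))))
    (B : List Fm) (hB : ∀ β ∈ B, TrueS β) (hr : 0 < r) (k : ℕ) :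
    ∃ A : List Fm, (∀ φ ∈ A, TrueS φ) ∧ (∀ φ ∈ B, φ ∈ A) ∧ (∀ φ ∈ Q, φ ∈ A) ∧
      ∀ M : ℕ, ∃ N ≥ M, ∀ n ≤ N, N ≤ gs r k n →
        Prov A (gs r (k + 6) n) (conN con (θ.sub 0 (.num (lc A)) :: A) n) := by
  have hs := fs_strictMono hr
  obtain ⟨B₀, B₁, b1, b2, b3, b4, b5⟩ := Amp.main hcon hθ hB
  obtain ⟨A, a1, a2, a3, a4⟩ := long hcon B₀ b1 hr (k + 1)
  have hAc : ∀ n, ¬ Prov A n .bot := fun n h =>
    h.sound (fun φ hφ => (a1 φ hφ).2) (fun _ => 0)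
  have hmem : ∀ (T : List Fm) (φ : Fm), φ ∈ T → ∃ k, Prov T k φ := fun T φ hφ =>
    ⟨plen [φ], [], ⟨trivial, Or.inl hφ⟩, le_rfl⟩
  have hTs : ∀ φ ∈ conS con A :: A, Fm.Sentence φ := by
    intro φ hφ
    rcases List.mem_cons.mp hφ with rfl | hφ
    · exact hcon.conS_sentence A
    · exact (a1 φ hφ).1
  obtain ⟨t1, c, hc⟩ := b5 A (conS con A :: A) (fun φ hφ => (a1 φ hφ).1) hTs hAc
    (fun φ hφ => hmem A φ (a2 φ hφ)) (fun φ hφ => hmem _ φ (by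
      rcases List.mem_cons.mp hφ with rfl | hφ
      · exact List.mem_cons_self
      · exact List.mem_cons_of_mem _ (a2 φ hφ)))
  refine ⟨conS con A :: B₁, t1, fun φ hφ => List.mem_cons_of_mem _ (b3 φ hφ),
    fun φ hφ => List.mem_cons_of_mem _ (b4 φ hφ), fun M => ?_⟩
  obtain ⟨n₁, hn₁⟩ := eventually_atTop.mp ((gs_pow hr (k + 5) (c + c + c)).and
    ((gs_shift hr (k + 4) c).and ((gs_tendsto hr k c).and
      ((gs_pow hr k 2).and (gs_tendsto hr k 2)))))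
  obtain ⟨N, hN, h5⟩ := a4 (max (M + c) (gs r k n₁ + c + 1))
  have hN1 : M + c ≤ N := (le_max_left _ _).trans hN
  have hN2 : gs r k n₁ + c + 1 ≤ N := (le_max_right _ _).trans hN
  refine ⟨N - c, by omega, fun n hn hnk => ?_⟩
  have hn' : n₁ ≤ n := by
    by_contra h6
    have := gs_mono hr k (show n ≤ n₁ by omega)
    omega
  obtain ⟨h6, h7, h8, h9, h10⟩ := hn₁ n hn'
  have h11 : N ≤ gs r (k + 1) (n + c) := by
    have e1 : gs r (k + 1) n ≤ gs r (k + 1) (n + c) := gs_mono hr _ (by omega)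
    have e2 : gs r k n + c ≤ gs r k n ^ 2 := by nlinarith
    omega
  have h12 := hc n (gs r (k + 4) (n + c)) (h5 (n + c) (by omega) h11)
  refine h12.mono (le_trans ?_ h6)
  obtain ⟨y, hy⟩ : ∃ y, y = gs r (k + 5) n := ⟨_, rfl⟩
  have h13 : gs r (k + 4) (n + c) ≤ y := hy ▸ h7
  have h14 : n ≤ y := by
    rw [hy]
    exact (lt_J hr n).le.trans (hs.monotone (by omega))
  have h15 : c ≤ y := by
    rw [hy]
    exact h8.trans (hs.monotone (by omega))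
  have h16 : 2 ≤ y := by
    rw [hy]
    exact h10.trans (hs.monotone (by omega))
  rw [← hy]
  have h17 : n + gs r (k + 4) (n + c) + c ≤ y ^ 3 := by
    have e1 : y ^ 3 = y * (y * y) := by ring
    have e2 : 4 ≤ y * y := by nlinarith
    have e3 : y * 4 ≤ y * (y * y) := Nat.mul_le_mul_left _ e2
    omega
  calc (n + gs r (k + 4) (n + c) + c) ^ c ≤ (y ^ 3) ^ c := Nat.pow_le_pow_left h17 c
    _ = y ^ (c + c + c) := by rw [← pow_mul]; congr 1; ring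

/-- Subexponential proofs of the finite consistency of `A + θ (A)` on long intervals. -/
theorem final {con : Fm} (hcon : IsCon con) {θ : Fm}
    (hθ : ∀ S : List Fm, (∀ φ ∈ S, TrueS φ) → TrueS (θ.sub 0 (.num (lc S))))
    (B : List Fm) (hB : ∀ β ∈ B, TrueS β) {s : ℕ} (hs0 : 0 < s) :
    ∃ (A : List Fm) (g h : ℕ → ℕ),
      (∀ φ ∈ θ.sub 0 (.num (lc A)) :: A, TrueS φ) ∧ (∀ φ ∈ B, φ ∈ A) ∧ (∀ φ ∈ Q, φ ∈ A) ∧
      Monotone g ∧ Monotone h ∧ (∀ᶠ n in atTop, h^[s] n ≤ 2 ^ n ∧ 2 ^ n ≤ g^[s + 1] n) ∧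
      (∀ k : ℕ, ∀ᶠ n in atTop, n ^ k ≤ g n) ∧
      (∀ ε : ℝ, 0 < ε → ∀ᶠ n : ℕ in atTop, (h n : ℝ) ≤ 2 ^ ((n : ℝ) ^ ε)) ∧
      ∀ M : ℕ, ∃ N ≥ M, ∀ n ≤ N, N ≤ g n →
        Prov A (h n) (conN con (θ.sub 0 (.num (lc A)) :: A) n) := by
  obtain ⟨k, hk⟩ : ∃ k, k = 6 * s + 2 := ⟨_, rfl⟩
  obtain ⟨r, hrdef⟩ : ∃ r, r = s * (k + 6) + 1 := ⟨_, rfl⟩
  have hr : 0 < r := by omega
  obtain ⟨A, a1, a2, a3, a4⟩ := long_theta hcon hθ B hB hr k
  refine ⟨A, gs r k, gs r (k + 6), ?_, a2, a3, gs_mono hr k, gs_mono hr _, ?_, fun i => ?_,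
    fun ε hε => gs_le_rpow ?_ hε, a4⟩
  · intro φ hφ
    rcases List.mem_cons.mp hφ with rfl | hφ
    · exact hθ A a1
    · exact a1 φ hφ
  · filter_upwards [eventually_ge_atTop (fs r 0)] with n hn
    refine ⟨gs_iter_le hr ?_ hn, gs_le_iter hr ?_ n⟩
    · rw [hrdef, Nat.mul_comm]; omega
    · rw [hrdef, hk]; nlinarith
  · filter_upwards [pow_le_gs hr i] with n hn
    exact hn.trans ((fs_strictMono hr).monotone (by omega))
  · rw [hrdef]; nlinarith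

end Helper31Con.H71
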