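import Pool.Agent.Helper71_LI.Long

/-!
# The earlier form of the theorem on long intervals, from the stronger one

This file only shows that `Helper31Con.H71.final` implies the earlier statement word by word.
-/

namespace Helper31Con.H71

open Function Filter Fm Helper31Con

theorem conS_eq (con : Fm) (S : List Fm) :
    (all 1 con).sub 0 (.num (lc S)) = conS con S := by
  show (if (1 : ℕ) = 0 then all 1 con else all 1 (con.sub 0 (.num (lc S)))) = _
  rw [if_neg (by decide)]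
  rfl

theorem conS_true {con : Fm} (hcon : IsCon con) (S : List Fm) (hS : ∀ φ ∈ S, TrueS φ) :
    TrueS ((all 1 con).sub 0 (.num (lc S))) := by
  rw [conS_eq]
  refine ⟨hcon.conS_sentence S, fun e => (hcon.conS_sat (fun φ hφ => (hS φ hφ).1) e).mpr ?_⟩
  exact fun n h => h.sound (fun φ hφ => (hS φ hφ).2) (fun _ => 0)

/-- The statement of the earlier hand-in. -/
theorem old :
    (∃ con : Fm, IsCon con) ∧
    ∀ con : Fm, IsCon con → ∀ B : List Fm, (∀ β ∈ B, TrueS β) → ∀ s : ℕ,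
      ∃ (A : List Fm) (h : ℕ → ℕ),
        (∀ φ ∈ A, TrueS φ) ∧ (∀ φ ∈ B, φ ∈ A) ∧ (∀ φ ∈ Q, φ ∈ A) ∧
        (∀ k, ¬ Prov (conS con A :: A) k .bot) ∧
        Monotone h ∧ (∀ᶠ n in atTop, h^[s] n ≤ 2 ^ n) ∧
        (∀ ε : ℝ, 0 < ε → ∀ᶠ n : ℕ in atTop, (h n : ℝ) ≤ 2 ^ ((n : ℝ) ^ ε)) ∧
        ∀ k M : ℕ, ∃ N ≥ M, ∀ n ≤ N, N ≤ n ^ k →
          Prov A (h n) (conN con (conS con A :: A) n) := by
  refine ⟨exists_con, fun con hcon B hB s => ?_⟩
  obtain ⟨s', hs', hss⟩ : ∃ s', 0 < s' ∧ (s = s' ∨ s = 0) := by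
    rcases Nat.eq_zero_or_pos s with h | h
    · exact ⟨1, by omega, Or.inr h⟩
    · exact ⟨s, h, Or.inl rfl⟩
  obtain ⟨A, g, h, a1, a2, a3, _, a5, a6, a7, a8, a9⟩ :=
    final hcon (θ := all 1 con) (conS_true hcon) B hB hs'
  rw [conS_eq] at a1
  refine ⟨A, h, fun φ hφ => a1 φ (List.mem_cons_of_mem _ hφ), a2, a3, ?_, a5, ?_, a8, ?_⟩
  · exact fun k h => h.sound (fun φ hφ => (a1 φ hφ).2) (fun _ => 0)
  · rcases hss with rfl | rfl
    · filter_upwards [a6] with n hn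
      exact hn.1
    · exact Eventually.of_forall fun n => (Nat.lt_two_pow_self).le
  · intro k M
    obtain ⟨n₁, hn₁⟩ := eventually_atTop.mp (a7 k)
    obtain ⟨N, hN, hp⟩ := a9 (max M (n₁ ^ k + 1))
    refine ⟨N, (le_max_left _ _).trans hN, fun n hn hnk => ?_⟩
    have h1 : n₁ ^ k + 1 ≤ N := (le_max_right _ _).trans hN
    have h2 : n₁ ≤ n := by
      by_contra h6
      have := Nat.pow_le_pow_left (show n ≤ n₁ by omega) k
      omega
    have h3 := hp n hn (hnk.trans (hn₁ n h2))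
    rwa [conS_eq] at h3

end Helper31Con.H71
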